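import Mathlib

/-!
# Holomorphic functions of two variables: partial derivatives

If `F` is (Fréchet) differentiable on the open set `s ×ˢ t` of `ℂ × ℂ` then its partial derivatives
are differentiable there too, and the mixed second partial derivatives agree.
-/

set_option autoImplicit false

namespace Pool.Agent.Helper51.TwoVar

open Set Filter Topology

variable {s t : Set ℂ} {F : ℂ → ℂ → ℂ}

lemma diff_snd (hF : DifferentiableOn ℂ (fun z : ℂ × ℂ => F z.1 z.2) (s ×ˢ t)) {a : ℂ} (ha : a ∈ s) :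
    DifferentiableOn ℂ (F a) t := by
  have h : DifferentiableOn ℂ (fun b : ℂ => ((a, b) : ℂ × ℂ)) t := by fun_prop
  exact hF.comp h fun b hb => ⟨ha, hb⟩

lemma diff_fst (hF : DifferentiableOn ℂ (fun z : ℂ × ℂ => F z.1 z.2) (s ×ˢ t)) {b : ℂ} (hb : b ∈ t) :
    DifferentiableOn ℂ (fun a => F a b) s := by
  have h : DifferentiableOn ℂ (fun a : ℂ => ((a, b) : ℂ × ℂ)) s := by fun_prop
  exact hF.comp h fun a ha => ⟨ha, hb⟩

lemma swap_diff (hF : DifferentiableOn ℂ (fun z : ℂ × ℂ => F z.1 z.2) (s ×ˢ t)) :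
    DifferentiableOn ℂ (fun z : ℂ × ℂ => (fun b a => F a b) z.1 z.2) (t ×ˢ s) := by
  have h : DifferentiableOn ℂ (fun z : ℂ × ℂ => ((z.2, z.1) : ℂ × ℂ)) (t ×ˢ s) := by fun_prop
  exact hF.comp h fun z hz => ⟨hz.2, hz.1⟩

/-- A jointly continuous function depends on the first variable continuously for the locally uniform
convergence in the second variable. -/
lemma tlu (hs : IsOpen s) (ht : IsOpen t)
    (hc : ContinuousOn (fun z : ℂ × ℂ => F z.1 z.2) (s ×ˢ t)) {a : ℂ} (ha : a ∈ s)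
    {ι : Type*} {p : Filter ι} {g : ι → ℂ} (hg : Tendsto g p (𝓝 a)) :
    TendstoLocallyUniformlyOn (fun i => F (g i)) (F a) p t := by
  rw [Metric.tendstoLocallyUniformlyOn_iff]
  intro ε hε b hb
  have h1 : ContinuousAt (fun z : ℂ × ℂ => F z.1 z.2) (a, b) :=
    hc.continuousAt ((hs.prod ht).mem_nhds ⟨ha, hb⟩)
  have h2 := (Metric.tendsto_nhds.1 h1) (ε / 2) (by positivity)
  rw [nhds_prod_eq, eventually_prod_iff] at h2
  obtain ⟨pa, hpa, pb, hpb, H⟩ := h2
  refine ⟨{y | pb y}, mem_nhdsWithin_of_mem_nhds hpb, ?_⟩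
  filter_upwards [hg.eventually hpa] with i hi y hy
  have h3 := H hi hy
  have h4 := H hpa.self_of_nhds hy
  have h5 : dist (F a y) (F (g i) y) ≤ dist (F a y) (F a b) + dist (F (g i) y) (F a b) :=
    dist_triangle_right _ _ _
  simp only at h3 h4
  linarith

lemma cont_deriv_snd (hs : IsOpen s) (ht : IsOpen t)
    (hc : ContinuousOn (fun z : ℂ × ℂ => F z.1 z.2) (s ×ˢ t))
    (hd : ∀ a ∈ s, DifferentiableOn ℂ (F a) t) :
    ContinuousOn (fun z : ℂ × ℂ => deriv (F z.1) z.2) (s ×ˢ t) := by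
  rintro ⟨a, b⟩ ⟨ha, hb⟩
  refine ContinuousAt.continuousWithinAt ?_
  have h1 : TendstoLocallyUniformlyOn (fun z : ℂ × ℂ => F z.1) (F a) (𝓝 (a, b)) t :=
    tlu hs ht hc ha (p := 𝓝 (a, b)) (g := Prod.fst) continuous_fst.continuousAt
  have h2 : ∀ᶠ z : ℂ × ℂ in 𝓝 (a, b), DifferentiableOn ℂ (F z.1) t := by
    filter_upwards [(continuous_fst.continuousAt (x := ((a, b) : ℂ × ℂ))).preimage_mem_nhds
      (hs.mem_nhds ha)] with z hz
    exact hd _ hz
  have h3 := h1.deriv h2 ht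
  have h4 : ContinuousWithinAt (deriv (F a)) t b :=
    (((hd a ha).deriv ht).continuousOn) b hb
  have h5 : Tendsto (Prod.snd : ℂ × ℂ → ℂ) (𝓝 (a, b)) (𝓝[t] b) := by
    rw [ht.nhdsWithin_eq hb]
    exact continuous_snd.continuousAt
  exact h3.tendsto_comp h4 hb h5

lemma cont_deriv_fst (hs : IsOpen s) (ht : IsOpen t)
    (hc : ContinuousOn (fun z : ℂ × ℂ => F z.1 z.2) (s ×ˢ t))
    (hd : ∀ b ∈ t, DifferentiableOn ℂ (fun a => F a b) s) :
    ContinuousOn (fun z : ℂ × ℂ => deriv (fun a => F a z.2) z.1) (s ×ˢ t) := by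
  have h : ContinuousOn (fun z : ℂ × ℂ => ((z.2, z.1) : ℂ × ℂ)) (s ×ˢ t) := by fun_prop
  have h' : ContinuousOn (fun z : ℂ × ℂ => ((z.2, z.1) : ℂ × ℂ)) (t ×ˢ s) := by fun_prop
  have h1 := cont_deriv_snd (F := fun b a => F a b) ht hs (hc.comp h' fun z hz => ⟨hz.2, hz.1⟩) hd
  exact h1.comp h fun z hz => ⟨hz.2, hz.1⟩

/-- The difference quotients in the first variable converge locally uniformly. -/
lemma tlu_slope (hs : IsOpen s) (ht : IsOpen t)
    (hF : DifferentiableOn ℂ (fun z : ℂ × ℂ => F z.1 z.2) (s ×ˢ t)) {a : ℂ} (ha : a ∈ s) :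
    TendstoLocallyUniformlyOn (fun a' b => (a' - a)⁻¹ * (F a' b - F a b))
      (fun b => deriv (fun x => F x b) a) (𝓝[≠] a) t := by
  rw [Metric.tendstoLocallyUniformlyOn_iff]
  intro ε hε b hb
  have hc := cont_deriv_fst hs ht hF.continuousOn fun b hb => diff_fst hF hb
  have h1 : ContinuousAt (fun z : ℂ × ℂ => deriv (fun x => F x z.2) z.1) (a, b) :=
    hc.continuousAt ((hs.prod ht).mem_nhds ⟨ha, hb⟩)
  have h2 := (Metric.tendsto_nhds.1 h1) (ε / 4) (by positivity)
  rw [nhds_prod_eq, eventually_prod_iff] at h2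
  obtain ⟨pa, hpa, pb, hpb, H⟩ := h2
  obtain ⟨r, hr, hrs⟩ := Metric.mem_nhds_iff.1 (Filter.inter_mem hpa (hs.mem_nhds ha))
  refine ⟨{y | pb y} ∩ t, inter_mem (mem_nhdsWithin_of_mem_nhds hpb) self_mem_nhdsWithin, ?_⟩
  filter_upwards [mem_nhdsWithin_of_mem_nhds (Metric.ball_mem_nhds a hr), self_mem_nhdsWithin]
    with a' ha' hne y hy
  have hne' : a' - a ≠ 0 := sub_ne_zero.2 hne
  have hm : ‖(F a' y - deriv (fun x => F x y) a * a') - (F a y - deriv (fun x => F x y) a * a)‖ ≤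
      ε / 2 * ‖a' - a‖ := by
    refine Convex.norm_image_sub_le_of_norm_hasDerivWithin_le
      (f := fun x => F x y - deriv (fun x => F x y) a * x)
      (f' := fun x => deriv (fun x => F x y) x - deriv (fun x => F x y) a) ?_ ?_
      (convex_ball a r) (Metric.mem_ball_self hr) ha'
    · intro x hx
      have h3 : HasDerivAt (fun x => F x y) (deriv (fun x => F x y) x) x :=
        ((diff_fst hF hy.2).differentiableAt (hs.mem_nhds (hrs hx).2)).hasDerivAt
      have h4 : HasDerivAt (fun x => F x y - deriv (fun x => F x y) a * x)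
          (deriv (fun x => F x y) x - deriv (fun x => F x y) a * 1) x :=
        h3.sub ((hasDerivAt_id x).const_mul (deriv (fun x => F x y) a))
      rw [mul_one] at h4
      exact h4.hasDerivWithinAt
    · intro x hx
      have h3 := H (hrs hx).1 hy.1
      have h4 := H (hrs (Metric.mem_ball_self hr)).1 hy.1
      have h5 := dist_triangle_right (deriv (fun x => F x y) x) (deriv (fun x => F x y) a)
        (deriv (fun x => F x b) a)
      rw [← dist_eq_norm]
      simp only at h3 h4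
      linarith
  rw [dist_comm, dist_eq_norm]
  have h6 : (a' - a)⁻¹ * (F a' y - F a y) - deriv (fun x => F x y) a =
      (a' - a)⁻¹ * ((F a' y - deriv (fun x => F x y) a * a') -
        (F a y - deriv (fun x => F x y) a * a)) := by
    field_simp
    ring
  rw [h6, norm_mul, norm_inv]
  have h7 : 0 < ‖a' - a‖ := norm_pos_iff.2 hne'
  calc ‖a' - a‖⁻¹ * ‖(F a' y - deriv (fun x => F x y) a * a') -
        (F a y - deriv (fun x => F x y) a * a)‖
      ≤ ‖a' - a‖⁻¹ * (ε / 2 * ‖a' - a‖) := mul_le_mul_of_nonneg_left hm (by positivity)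
    _ = ε / 2 := by field_simp
    _ < ε := by linarith

lemma diff_slope
    (hF : DifferentiableOn ℂ (fun z : ℂ × ℂ => F z.1 z.2) (s ×ˢ t)) {a a' : ℂ} (ha : a ∈ s)
    (ha' : a' ∈ s) : DifferentiableOn ℂ (fun b => (a' - a)⁻¹ * (F a' b - F a b)) t :=
  ((diff_snd hF ha').sub (diff_snd hF ha)).const_mul _

/-- `∂_a F` is holomorphic in `b`. -/
lemma diff_deriv_fst (hs : IsOpen s) (ht : IsOpen t)
    (hF : DifferentiableOn ℂ (fun z : ℂ × ℂ => F z.1 z.2) (s ×ˢ t)) {a : ℂ} (ha : a ∈ s) :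
    DifferentiableOn ℂ (fun b => deriv (fun x => F x b) a) t := by
  refine (tlu_slope hs ht hF ha).differentiableOn ?_ ht
  filter_upwards [mem_nhdsWithin_of_mem_nhds (hs.mem_nhds ha)] with a' ha'
  exact diff_slope hF ha ha'

/-- Equality of the mixed second derivatives. -/
lemma mixed (hs : IsOpen s) (ht : IsOpen t)
    (hF : DifferentiableOn ℂ (fun z : ℂ × ℂ => F z.1 z.2) (s ×ˢ t)) {a b : ℂ} (ha : a ∈ s)
    (hb : b ∈ t) :
    HasDerivAt (fun x => deriv (F x) b) (deriv (fun y => deriv (fun x => F x y) a) b) a := by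
  rw [hasDerivAt_iff_tendsto_slope]
  have h1 : ∀ᶠ a' in 𝓝[≠] a, DifferentiableOn ℂ (fun b => (a' - a)⁻¹ * (F a' b - F a b)) t := by
    filter_upwards [mem_nhdsWithin_of_mem_nhds (hs.mem_nhds ha)] with a' ha'
    exact diff_slope hF ha ha'
  have h2 := ((tlu_slope hs ht hF ha).deriv h1 ht).tendsto_at hb
  refine h2.congr' ?_
  filter_upwards [mem_nhdsWithin_of_mem_nhds (hs.mem_nhds ha)] with a' ha'
  have h3 : HasDerivAt (F a') (deriv (F a') b) b :=
    ((diff_snd hF ha').differentiableAt (ht.mem_nhds hb)).hasDerivAt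
  have h4 : HasDerivAt (F a) (deriv (F a) b) b :=
    ((diff_snd hF ha).differentiableAt (ht.mem_nhds hb)).hasDerivAt
  have h5 := ((h3.sub h4).const_mul (a' - a)⁻¹).deriv
  simp only [Function.comp_apply, slope_def_field]
  rw [div_eq_inv_mul]
  exact h5

/-- `∂_b F` is differentiable in both variables. -/
lemma diffOn_deriv_snd (hs : IsOpen s) (ht : IsOpen t)
    (hF : DifferentiableOn ℂ (fun z : ℂ × ℂ => F z.1 z.2) (s ×ˢ t)) :
    DifferentiableOn ℂ (fun z : ℂ × ℂ => deriv (F z.1) z.2) (s ×ˢ t) := by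
  rintro ⟨a, b⟩ ⟨ha, hb⟩
  have hst : s ×ˢ t ∈ 𝓝 ((a, b) : ℂ × ℂ) := (hs.prod ht).mem_nhds ⟨ha, hb⟩
  have hc1 : ContinuousOn (fun z : ℂ × ℂ => deriv (fun y => deriv (fun x => F x y) z.1) z.2)
      (s ×ˢ t) :=
    cont_deriv_snd (F := fun a b => deriv (fun x => F x b) a) hs ht
      (cont_deriv_fst hs ht hF.continuousOn fun b hb => diff_fst hF hb)
      fun a ha => diff_deriv_fst hs ht hF ha
  have hc2 : ContinuousOn (fun z : ℂ × ℂ => deriv (deriv (F z.1)) z.2) (s ×ˢ t) :=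
    cont_deriv_snd (F := fun a b => deriv (F a) b) hs ht
      (cont_deriv_snd hs ht hF.continuousOn fun a ha => diff_snd hF ha)
      fun a ha => (diff_snd hF ha).deriv ht
  have key := hasStrictFDerivAt_uncurry_coprod (𝕜 := ℂ) (u := ((a, b) : ℂ × ℂ))
    (f := fun a b => deriv (F a) b)
    (f₁ := fun a b => ContinuousLinearMap.toSpanSingleton ℂ
      (deriv (fun y => deriv (fun x => F x y) a) b))
    (f₂ := fun a b => ContinuousLinearMap.toSpanSingleton ℂ (deriv (deriv (F a)) b)) ?_ ?_ ?_ ?_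
  · exact key.hasFDerivAt.differentiableAt.differentiableWithinAt
  · filter_upwards [hst] with v hv
    exact (mixed hs ht hF hv.1 hv.2).hasFDerivAt
  · filter_upwards [hst] with v hv
    exact ((((diff_snd hF hv.1).deriv ht).differentiableAt (ht.mem_nhds hv.2)).hasDerivAt).hasFDerivAt
  · have h1 := hc1.continuousAt hst
    have h2 : Continuous (fun c : ℂ => ContinuousLinearMap.toSpanSingleton ℂ c) :=
      (ContinuousLinearMap.toSpanSingletonLIE ℂ ℂ).continuous
    exact h2.continuousAt.comp h1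
  · have h1 := hc2.continuousAt hst
    have h2 : Continuous (fun c : ℂ => ContinuousLinearMap.toSpanSingleton ℂ c) :=
      (ContinuousLinearMap.toSpanSingletonLIE ℂ ℂ).continuous
    exact h2.continuousAt.comp h1

/-- `∂_a F` is differentiable in both variables. -/
lemma diffOn_deriv_fst (hs : IsOpen s) (ht : IsOpen t)
    (hF : DifferentiableOn ℂ (fun z : ℂ × ℂ => F z.1 z.2) (s ×ˢ t)) :
    DifferentiableOn ℂ (fun z : ℂ × ℂ => deriv (fun x => F x z.2) z.1) (s ×ˢ t) := by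
  have h := diffOn_deriv_snd (F := fun b a => F a b) ht hs (swap_diff hF)
  have h1 : DifferentiableOn ℂ (fun z : ℂ × ℂ => ((z.2, z.1) : ℂ × ℂ)) (s ×ˢ t) := by fun_prop
  exact h.comp h1 fun z hz => ⟨hz.2, hz.1⟩

/-- Chain rule along a curve `b = c(a)`. -/
lemma chain (hs : IsOpen s) (ht : IsOpen t)
    (hF : DifferentiableOn ℂ (fun z : ℂ × ℂ => F z.1 z.2) (s ×ˢ t)) {c : ℂ → ℂ} {a c' : ℂ}
    (ha : a ∈ s) (hca : c a ∈ t) (hc : HasDerivAt c c' a) :
    HasDerivAt (fun x => F x (c x)) (deriv (fun x => F x (c a)) a + deriv (F a) (c a) * c') a := by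
  have hd : DifferentiableAt ℂ (fun z : ℂ × ℂ => F z.1 z.2) (a, c a) :=
    hF.differentiableAt ((hs.prod ht).mem_nhds ⟨ha, hca⟩)
  have h1 : HasDerivAt (fun x : ℂ => ((x, c x) : ℂ × ℂ)) (1, c') a := (hasDerivAt_id a).prodMk hc
  have h2 := hd.hasFDerivAt.comp_hasDerivAt a h1
  have h3 : HasDerivAt (fun x : ℂ => ((x, c a) : ℂ × ℂ)) (1, 0) a :=
    (hasDerivAt_id a).prodMk (hasDerivAt_const a (c a))
  have h4 := (hd.hasFDerivAt.comp_hasDerivAt a h3).deriv
  have h5 : HasDerivAt (fun y : ℂ => ((a, y) : ℂ × ℂ)) (0, 1) (c a) :=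
    (hasDerivAt_const (c a) a).prodMk (hasDerivAt_id (c a))
  have h6 := (hd.hasFDerivAt.comp_hasDerivAt (c a) h5).deriv
  have h7 : ((1, c') : ℂ × ℂ) = (1, 0) + c' • (0, 1) := by simp
  have h8 : fderiv ℂ (fun z : ℂ × ℂ => F z.1 z.2) (a, c a) (1, c') =
      deriv (fun x => F x (c a)) a + deriv (F a) (c a) * c' := by
    rw [h7, map_add, map_smul, smul_eq_mul, mul_comm c']
    have h9 : deriv (fun x => F x (c a)) a =
        fderiv ℂ (fun z : ℂ × ℂ => F z.1 z.2) (a, c a) (1, 0) := h4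
    have h10 : deriv (F a) (c a) = fderiv ℂ (fun z : ℂ × ℂ => F z.1 z.2) (a, c a) (0, 1) := h6
    rw [h9, h10]
  rw [← h8]
  exact h2

end Pool.Agent.Helper51.TwoVar
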